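import Pool.Agent.MWE.Stmts
import Pool.Agent.Helper11_MVD.CntA

/-!
# Squad MWE, row SEP (helper3)
-/

set_option autoImplicit false

namespace Pool.Agent.MWE.H3

open Pool.Agent.Helper14_MV Pool.Agent.Helper2_MV Pool.Agent.MVD Pool.Agent.MWE

theorem bw_app (R R' : List ℕ) (B : ℕ → List ℕ) : Bw (R ++ R') B = Bw R B ++ Bw R' B := by
  simp [Bw]

theorem bw_cns (r : ℕ) (R : List ℕ) (B : ℕ → List ℕ) :
    Bw (r :: R) B = (B r ++ [3 * r + 2]) ++ Bw R B := by
  simp [Bw]

theorem cB1 {R : List ℕ} {B : ℕ → List ℕ} {r : ℕ} (z : ℕ) (h : r ∈ R) :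
    (B r).count z ≤ (Bw R B).count z := by
  obtain ⟨R1, R2, rfl⟩ := List.append_of_mem h
  rw [bw_app, bw_cns]
  simp only [List.count_append]
  omega

theorem cB2 {R : List ℕ} {B : ℕ → List ℕ} {r r' : ℕ} (z : ℕ) (h : r ∈ R) (h' : r' ∈ R)
    (hne : r ≠ r') : (B r).count z + (B r').count z ≤ (Bw R B).count z := by
  obtain ⟨R1, R2, rfl⟩ := List.append_of_mem h
  rw [bw_app, bw_cns]
  simp only [List.count_append]
  rw [List.mem_append, List.mem_cons] at h'
  rcases h' with h' | h' | h'
  · have := cB1 (B := B) z h'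
    omega
  · exact absurd h'.symm hne
  · have := cB1 (B := B) z h'
    omega

theorem fm_count (f : ℕ → List ℕ) (a z : ℕ) (L : List ℕ) :
    L.count a * (f a).count z ≤ (L.flatMap f).count z := by
  induction L with
  | nil => simp
  | cons b L ih =>
    rw [List.flatMap_cons, List.count_append, List.count_cons]
    by_cases h : b = a
    · subst h
      rw [beq_self_eq_true, if_pos rfl, Nat.add_mul, Nat.one_mul]
      omega
    · have h' : (b == a) = false := by simpa using h
      rw [h', if_neg (by simp), Nat.add_zero]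
      omega

theorem perm03 {l : List ℕ} (h : l.Perm [0, 3]) : XX l := by
  obtain ⟨a, b, rfl⟩ := List.length_eq_two.1 h.length_eq
  have ha : a ∈ [0, 3] := h.subset (by simp)
  have hb : b ∈ [0, 3] := h.subset (by simp)
  have h0 := h.count_eq 0
  have h3 := h.count_eq 3
  simp only [List.mem_cons, List.not_mem_nil, or_false] at ha hb
  rcases ha with rfl | rfl <;> rcases hb with rfl | rfl
  · simp at h0
  · exact Or.inl rfl
  · exact Or.inr rfl
  · simp at h3

theorem xs_xx {t : List ℕ} (h : t.Perm [0, 1, 2, 3]) : XX (Xs 0 1 t) := by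
  apply perm03
  have h1 : (Xs 0 1 t).Perm (Xs 0 1 [0, 1, 2, 3]) := by
    unfold Xs
    exact h.flatMap_right _
  exact h1

theorem mem_L4 {c : List ℕ} {a : ℕ} : a ∈ L4 c ↔
    (∃ i < 4, a = 3 * i) ∨ ∃ k < 3, a ∈ cp k c := by
  unfold L4
  simp only [List.mem_cons, List.mem_append, List.not_mem_nil, or_false]
  constructor
  · rintro (h | h | h | h | h | h | h)
    · exact Or.inl ⟨0, by omega, by omega⟩
    · exact Or.inr ⟨0, by omega, h⟩
    · exact Or.inl ⟨1, by omega, by omega⟩
    · exact Or.inr ⟨1, by omega, h⟩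
    · exact Or.inl ⟨2, by omega, by omega⟩
    · exact Or.inr ⟨2, by omega, h⟩
    · exact Or.inl ⟨3, by omega, by omega⟩
  · rintro (⟨i, hi, h⟩ | ⟨k, hk, h⟩)
    · have : i = 0 ∨ i = 1 ∨ i = 2 ∨ i = 3 := by omega
      rcases this with rfl | rfl | rfl | rfl <;> simp [h]
    · have : k = 0 ∨ k = 1 ∨ k = 2 := by omega
      rcases this with rfl | rfl | rfl <;> simp [h]

theorem count_L4 (c : List ℕ) (a k : ℕ) (hk : k < 3) : (cp k c).count a ≤ (L4 c).count a := by
  unfold L4
  simp only [List.count_cons, List.count_append]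
  have : k = 0 ∨ k = 1 ∨ k = 2 := by omega
  rcases this with rfl | rfl | rfl <;> omega

theorem cl_light (k d : ℕ) : cl k (3 * d + 1) = 3 * (3 * d + k) + 1 := by
  unfold cl
  have h1 : (3 * d + 1) % 3 = 1 := by omega
  have h2 : (3 * d + 1) / 3 = d := by omega
  rw [if_pos h1, h2]

/-- every letter of the pattern which is not a separator occurs twice -/
theorem two_le {m : ℕ} {R c s : List ℕ} (hc : Can m c) (hR : R.Perm (List.range (m + 2)))
    (hs : s.Perm [0, 1, 2, 3]) {a : ℕ} (ha : a ∈ Fq R s c) (h2 : a % 3 ≠ 2) :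
    2 ≤ (Fq R s c).count a := by
  have hmR : ∀ r, r ∈ R ↔ r < m + 2 := fun r => by rw [hR.mem_iff, List.mem_range]
  have h0R : 0 ∈ R := (hmR 0).2 (by omega)
  have h1R : 1 ∈ R := (hmR 1).2 (by omega)
  set B : ℕ → List ℕ := fun r => if r = 0 then s.map (fun i => 3 * i) else if r = 1 then L4 c
    else Z3 r with hB
  have hF : Fq R s c = Bw R B := rfl
  have hB0 : B 0 = s.map (fun i => 3 * i) := if_pos rfl
  have hB1 : B 1 = L4 c := rfl
  have hBr : ∀ d, B (d + 2) = Z3 (d + 2) := fun d => rfl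
  have fin01 : a ∈ B 0 → a ∈ B 1 → 2 ≤ (Bw R B).count a := fun h h' => by
    have h3 := cB2 (B := B) a h0R h1R (by omega)
    have h4 := List.count_pos_iff.2 h
    have h5 := List.count_pos_iff.2 h'
    omega
  have fin1d : ∀ d < m, a ∈ B 1 → a ∈ B (d + 2) → 2 ≤ (Bw R B).count a := fun d hd h h' => by
    have h3 := cB2 (B := B) a h1R ((hmR (d + 2)).2 (by omega)) (by omega)
    have h4 := List.count_pos_iff.2 h
    have h5 := List.count_pos_iff.2 h'
    omega
  rw [hF] at ha ⊢
  unfold Bw at ha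
  rw [List.mem_flatMap] at ha
  obtain ⟨r, hr, ha⟩ := ha
  rw [List.mem_append, List.mem_singleton] at ha
  rcases ha with ha | ha
  swap
  · omega
  have hcase : r = 0 ∨ r = 1 ∨ ∃ d, r = d + 2 := by
    rcases r with _ | _ | d
    · exact Or.inl rfl
    · exact Or.inr (Or.inl rfl)
    · exact Or.inr (Or.inr ⟨d, rfl⟩)
  rcases hcase with rfl | rfl | ⟨d, rfl⟩
  · refine fin01 ha ?_
    rw [hB0, List.mem_map] at ha
    obtain ⟨i, hi, rfl⟩ := ha
    have hi4 : i < 4 := by
      have := hs.subset hi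
      simp only [List.mem_cons, List.not_mem_nil, or_false] at this
      omega
    rw [hB1, mem_L4]
    exact Or.inl ⟨i, hi4, rfl⟩
  · have ha1 := ha
    rw [hB1, mem_L4] at ha
    rcases ha with ⟨i, hi, rfl⟩ | ⟨k, hk, hak⟩
    · refine fin01 ?_ ha1
      rw [hB0, List.mem_map]
      refine ⟨i, hs.symm.subset ?_, rfl⟩
      have : i = 0 ∨ i = 1 ∨ i = 2 ∨ i = 3 := by omega
      rcases this with rfl | rfl | rfl | rfl <;> simp
    · have hak' := hak
      unfold cp at hak
      rw [List.mem_map] at hak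
      obtain ⟨b, hb, rfl⟩ := hak
      rcases hc.lo b hb with ⟨d, hd, rfl⟩ | ⟨h3, h6, hb2⟩
      · refine fin1d d hd ha1 ?_
        rw [hBr, cl_light]
        unfold Z3
        have hdd : d + 2 - 2 = d := by omega
        rw [hdd]
        have : k = 0 ∨ k = 1 ∨ k = 2 := by omega
        rcases this with rfl | rfl | rfl <;> simp
      · have h4 : c.count b ≤ (cp k c).count (cl k b) := by
          unfold cp
          exact List.count_le_count_map
        have h5 := count_L4 c (cl k b) k hk
        have h6 := cB1 (B := B) (cl k b) h1R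
        rw [hB1] at h6
        omega
  · have hd : d < m := by
      have := (hmR (d + 2)).1 hr
      omega
    refine fin1d d hd ?_ ha
    rw [hBr] at ha
    unfold Z3 at ha
    have hdd : d + 2 - 2 = d := by omega
    rw [hdd] at ha
    have hdc : 3 * d + 1 ∈ c := List.count_pos_iff.1 (by rw [hc.li d hd]; omega)
    have hk : ∃ k < 3, a = 3 * (3 * d + k) + 1 := by
      simp only [List.mem_cons, List.not_mem_nil, or_false] at ha
      rcases ha with h | h | h
      · exact ⟨0, by omega, h⟩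
      · exact ⟨1, by omega, h⟩
      · exact ⟨2, by omega, h⟩
    obtain ⟨k, hk, rfl⟩ := hk
    rw [hB1, mem_L4]
    refine Or.inr ⟨k, hk, ?_⟩
    unfold cp
    rw [← cl_light k d]
    exact List.mem_map_of_mem hdc

/-- row SEP -/
theorem sep (bas : BasStmt) : SepStmt := by
  intro β m R c s t M Q φ hS hs hF a ha ha2 T hT hT2
  have h1 : 2 ≤ (Fq R s c).count a := two_le hS.can hS.pR hs ha ha2
  have h2 : 1 ≤ (φ a).count T := List.count_pos_iff.2 hT
  have h3 := fm_count φ a T (Fq R s c)
  have h4 : 2 ≤ ((Fq R s c).flatMap φ).count T := by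
    calc 2 = 2 * 1 := rfl
      _ ≤ (Fq R s c).count a * (φ a).count T := Nat.mul_le_mul h1 h2
      _ ≤ _ := h3
  have h5 : 2 ≤ (M ++ ((Fq R s c).flatMap φ ++ Q)).count T := by
    rw [List.count_append, List.count_append]
    omega
  have hpr : pr 0 1 0 T = [T] := by
    unfold pr
    rw [if_neg (by omega), if_neg (by omega)]
  have h6 := fm_count (pr 0 1 0) T T (M ++ ((Fq R s c).flatMap φ ++ Q))
  rw [hpr] at h6
  have h7 : [T].count T = 1 := by simp
  rw [h7, Nat.mul_one] at h6
  have h8 := hF.2 0 0 1 le_rfl (by omega) (by omega)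
  have hX : XX (Xs 0 1 t) := xs_xx hF.1
  obtain ⟨B, e, hw, hB, he⟩ := (bas β m R c _ hS.i3 hS.can hS.pR hX).1 _ h8
  rw [hw] at h6
  have h11 : (Bw R B ++ e).count T = (Bw R B).count T + e.count T := List.count_append
  have hn : R.Nodup := hS.pR.nodup_iff.2 List.nodup_range
  have h9 := Pool.Agent.MVD.H11.sep_count hT2 R B hn (fun r _ => hB r)
  have h10 : e.count T = 0 := List.count_eq_zero.2 fun hm => he T hm hT2
  omega

end Pool.Agent.MWE.H3
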